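import Pool.Agent.U588.RB.EA

/-! # The pointwise inequality `Star n p` for every `n` and all large `p`, second part (helper588) -/

set_option autoImplicit false

namespace Pool.Agent.U588.RB

open Finset Pool.Agent.Y282.RB

/-- going back from `γ n` -/
lemma back {σ : ℝ} (h0 : 0 < σ) (h1 : σ ≤ 1 / 2) (n : ℕ) (γ : ℕ → ℝ) {j : ℕ} (hj : j ≤ n) :
    |γ j| ≤ 2 * ∑ i ∈ Ico j n, |yy σ γ i| + |γ n| := by
  induction n, hj using Nat.le_induction with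
  | base => simp
  | succ n hjn ih =>
    have t1 := th_ge h1 n
    have t2 := th_le h0 n
    have e : th σ n * γ n = yy σ γ n - (1 - th σ n) * γ (n + 1) := by unfold yy; ring
    have e2 : th σ n * |γ n| ≤ |yy σ γ n| + (1 - th σ n) * |γ (n + 1)| := by
      have h2 : |th σ n * γ n| ≤ |yy σ γ n| + |(1 - th σ n) * γ (n + 1)| := by
        rw [e]; exact abs_sub _ _
      rwa [abs_mul, abs_mul, abs_of_nonneg (by linarith : 0 ≤ th σ n),
        abs_of_nonneg (by linarith : 0 ≤ 1 - th σ n)] at h2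
    have e3 : |γ n| ≤ 2 * |yy σ γ n| + |γ (n + 1)| := by
      have a1 := abs_nonneg (γ (n + 1))
      have a2 := abs_nonneg (yy σ γ n)
      have a3 := abs_nonneg (γ n)
      nlinarith
    rw [sum_Ico_succ_top hjn]
    linarith

/-- **E2** -/
lemma e2 {σ : ℝ} (h0 : 0 < σ) {n : ℕ} (hn : 1 ≤ n) (hs : 10000 * (n : ℝ) ^ 2 * σ ≤ 1)
    {γ : ℕ → ℝ} (hL : Lam σ n γ = 1) (hg : 1 ≤ γ 0) (hc : (γ n) ^ 2 ≤ (γ 0) ^ 2) :
    (γ 0) ^ 2 ≤ 1 + 50 * (n : ℝ) ^ 2 * σ := by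
  have hn1 : (1 : ℝ) ≤ n := by exact_mod_cast hn
  have hn2 : (1 : ℝ) ≤ (n : ℝ) ^ 2 := one_le_pow₀ hn1
  have hσ : σ ≤ 1 / 10000 := by nlinarith
  have h1 : σ ≤ 1 / 2 := by linarith
  have hN := norm_eq h0 h1 hn hL
  rw [split0 _ hn, KK_eq hn] at hN
  set S := ∑ j ∈ Ico 1 n, kk σ j * (yy σ γ j) ^ 2 with hS
  have hS0 : 0 ≤ S := sum_nonneg fun j _ => mul_nonneg (kk_pos h0 h1 j).le (sq_nonneg _)
  have hk0 := kk_pos h0 h1 0
  have hkσ := kk_zero_le h0 h1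
  have hkge := kk_zero_ge h0 h1
  have htl := tail_le h0 h1 n
  rw [div_le_iff₀ h0] at hkge
  -- the sum of the |y_j|
  have hsum : ∑ j ∈ Ico 1 n, |yy σ γ j| ≤ n * √S := by
    have a1 : (∑ j ∈ Ico 1 n, |yy σ γ j|) ^ 2 ≤ (∑ j ∈ Ico 1 n, (n : ℝ)) *
        ∑ j ∈ Ico 1 n, kk σ j * (yy σ γ j) ^ 2 := by
      apply sum_sq_le_sum_mul_sum_of_sq_le_mul
      · intro i _; positivity
      · intro i _; exact mul_nonneg (kk_pos h0 h1 i).le (sq_nonneg _)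
      · intro i hi
        rw [sq_abs]
        have b1 := kk_ge h0 h1 (mem_Ico.mp hi).2
        rw [div_le_iff₀ (by linarith)] at b1
        nlinarith [sq_nonneg (yy σ γ i)]
    have a2 : ∑ j ∈ Ico 1 n, (n : ℝ) ≤ (n : ℝ) ^ 2 := by
      simp only [sum_const, Nat.card_Ico, nsmul_eq_mul]
      have : ((n - 1 : ℕ) : ℝ) ≤ n := by exact_mod_cast Nat.sub_le n 1
      nlinarith
    have a3 : (∑ j ∈ Ico 1 n, |yy σ γ j|) ^ 2 ≤ (n * √S) ^ 2 := by
      rw [mul_pow, Real.sq_sqrt hS0]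
      exact a1.trans (mul_le_mul_of_nonneg_right a2 hS0)
    exact (abs_le_of_sq_le_sq' a3 (by positivity)).2
  have hγn : |γ n| ≤ γ 0 := by
    have := sq_le_sq.mp hc
    rwa [abs_of_nonneg (by linarith : 0 ≤ γ 0)] at this
  have hγ1 : |γ 1| ≤ 2 * (n * √S) + γ 0 := by
    have := back h0 h1 n γ hn
    linarith
  have hy0 := y_zero (σ := σ) γ
  -- first bounds
  have hSle : S ≤ kk σ 0 + 2 * n := by
    have : 0 ≤ kk σ 0 * (yy σ γ 0) ^ 2 := mul_nonneg hk0.le (sq_nonneg _)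
    linarith
  have hσS : (σ * √S) ^ 2 ≤ 3 * σ := by
    rw [mul_pow, Real.sq_sqrt hS0]
    have : σ * S ≤ 3 := by
      have b : σ * S ≤ σ * (kk σ 0 + 2 * n) := mul_le_mul_of_nonneg_left hSle h0.le
      nlinarith
    nlinarith
  have hq : (n * (σ * √S)) ^ 2 ≤ (1 / 50) ^ 2 := by
    rw [mul_pow]
    calc (n : ℝ) ^ 2 * (σ * √S) ^ 2 ≤ (n : ℝ) ^ 2 * (3 * σ) := by gcongr
      _ ≤ (1 / 50) ^ 2 := by nlinarith
  have hq' : n * (σ * √S) ≤ 1 / 50 := (abs_le_of_sq_le_sq' hq (by norm_num)).2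
  have hy0b : yy σ γ 0 ≤ 1 + n * σ := by
    have b1 : kk σ 0 * (yy σ γ 0) ^ 2 ≤ kk σ 0 + 2 * n := by linarith
    have b2 : (yy σ γ 0) ^ 2 ≤ (1 + n * σ) ^ 2 := by
      have b3 : kk σ 0 * (yy σ γ 0) ^ 2 ≤ kk σ 0 * (1 + n * σ) ^ 2 := by
        have b4 : 2 * (n : ℝ) ≤ kk σ 0 * (2 * (n * σ)) := by
          have : 1 ≤ σ * kk σ 0 := by linarith
          nlinarith
        nlinarith [mul_nonneg hk0.le (sq_nonneg ((n : ℝ) * σ))]
      exact le_of_mul_le_mul_left b3 hk0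
    exact (abs_le_of_sq_le_sq' b2 (by positivity)).2
  have hnσ : n * σ ≤ 1 / 10000 := by nlinarith
  have hγ0b : γ 0 ≤ 11 / 10 := by
    have b1 : -γ 1 ≤ 2 * (n * √S) + γ 0 := (neg_le_abs _).trans hγ1
    have b2 : (1 - σ) * γ 0 ≤ 1 + n * σ + (2 * (n * (σ * √S)) + σ * γ 0) := by
      have : σ * (-γ 1) ≤ σ * (2 * (n * √S) + γ 0) := mul_le_mul_of_nonneg_left b1 h0.le
      nlinarith
    nlinarith
  set D := γ 0 + |γ 1| with hD
  have hD1 : D ≤ 11 / 5 + 2 * (n * √S) := by linarith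
  have hσD : σ * D ≤ 1 := by
    have : σ * D ≤ σ * (11 / 5 + 2 * (n * √S)) := mul_le_mul_of_nonneg_left hD1 h0.le
    nlinarith
  have hD0 : 0 ≤ D := by have := abs_nonneg (γ 1); linarith
  -- better bound of `S`
  have hy0l : 1 - σ * D ≤ yy σ γ 0 := by
    rw [hy0, hD]
    have : -|γ 1| ≤ γ 1 := neg_abs_le _
    nlinarith
  have hS4 : S ≤ 4 * D + 2 * n := by
    have b1 : 1 - 2 * (σ * D) ≤ (yy σ γ 0) ^ 2 := by
      have b0 := mul_self_le_mul_self (by linarith : 0 ≤ 1 - σ * D) hy0l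
      nlinarith [sq_nonneg (σ * D)]
    have b2 : kk σ 0 * (1 - 2 * (σ * D)) ≤ kk σ 0 * (yy σ γ 0) ^ 2 :=
      mul_le_mul_of_nonneg_left b1 hk0.le
    have b3 : kk σ 0 * (2 * (σ * D)) ≤ 4 * D := by nlinarith
    linarith
  have hD2 : D ≤ 23 * (n : ℝ) ^ 2 := by
    have b1 : 2 * (n * √S) ≤ S / 8 + 8 * (n : ℝ) ^ 2 := by
      have : S = √S ^ 2 := (Real.sq_sqrt hS0).symm
      nlinarith [sq_nonneg (√S - 8 * n)]
    have b2 : (n : ℝ) ≤ (n : ℝ) ^ 2 := by nlinarith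
    linarith
  have hγ0c : γ 0 ≤ 1 + 24 * (n : ℝ) ^ 2 * σ := by
    have b1 : -γ 1 ≤ |γ 1| := neg_le_abs _
    have b2 : γ 0 ≤ yy σ γ 0 + σ * D := by
      rw [hy0, hD]
      nlinarith
    have b3 : σ * D ≤ σ * (23 * (n : ℝ) ^ 2) := mul_le_mul_of_nonneg_left hD2 h0.le
    nlinarith
  have c1 : 0 ≤ (n : ℝ) ^ 2 * σ := by positivity
  calc (γ 0) ^ 2 ≤ (1 + 24 * (n : ℝ) ^ 2 * σ) ^ 2 := by
        apply pow_le_pow_left₀ (by linarith) hγ0c
    _ ≤ 1 + 50 * (n : ℝ) ^ 2 * σ := by nlinarith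

/-- elementary consequences of `p ≥ exp (32 n²)` -/
lemma big {n : ℕ} (hn : 1 ≤ n) {p : ℝ} (hp : Real.exp (32 * (n : ℝ) ^ 2) ≤ p) :
    10000 * (n : ℝ) ^ 2 ≤ p ∧ 1000 * (n : ℝ) ^ 6 * Real.exp (25 * (n : ℝ) ^ 2) ≤ p := by
  have hn1 : (1 : ℝ) ≤ n := by exact_mod_cast hn
  have hn2 : (1 : ℝ) ≤ (n : ℝ) ^ 2 := one_le_pow₀ hn1
  set m := (n : ℝ) ^ 2 with hm
  have e7 : 1000 * m ^ 3 ≤ Real.exp (7 * m) := by
    have h1 : m ≤ Real.exp (m - 1) := by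
      have := Real.add_one_le_exp (m - 1); linarith
    have h2 : m ^ 3 ≤ Real.exp (3 * (m - 1)) := by
      calc m ^ 3 ≤ (Real.exp (m - 1)) ^ 3 := pow_le_pow_left₀ (by linarith) h1 3
        _ = Real.exp (3 * (m - 1)) := by rw [← Real.exp_nat_mul]; norm_num
    have h3 : (1000 : ℝ) ≤ Real.exp 7 := by
      have : Real.exp 7 = (Real.exp 1) ^ 7 := by rw [← Real.exp_nat_mul]; norm_num
      rw [this]
      have h4 : (2.7 : ℝ) ≤ Real.exp 1 := by have := Real.exp_one_gt_d9; linarith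
      calc (1000 : ℝ) ≤ 2.7 ^ 7 := by norm_num
        _ ≤ _ := pow_le_pow_left₀ (by norm_num) h4 7
    calc 1000 * m ^ 3 ≤ Real.exp 7 * Real.exp (3 * (m - 1)) := by
          apply mul_le_mul h3 h2 (by positivity) (Real.exp_pos _).le
      _ = Real.exp (7 + 3 * (m - 1)) := by rw [Real.exp_add]
      _ ≤ Real.exp (7 * m) := Real.exp_le_exp.mpr (by linarith)
  have e25 : (10 : ℝ) ≤ Real.exp (25 * m) := by
    have := Real.add_one_le_exp (25 * m); linarith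
  have e32 : Real.exp (32 * m) = Real.exp (7 * m) * Real.exp (25 * m) := by
    rw [← Real.exp_add]; congr 1; ring
  have hm3 : (n : ℝ) ^ 6 = m ^ 3 := by rw [hm]; ring
  constructor
  · have h5 : m ≤ m ^ 3 := by nlinarith [mul_nonneg (by linarith : 0 ≤ m) (sq_nonneg (m - 1)), sq_nonneg m]
    have h6 : 0 < m ^ 3 := by positivity
    calc 10000 * m ≤ (1000 * m ^ 3) * 10 := by linarith
      _ ≤ Real.exp (7 * m) * Real.exp (25 * m) :=
          mul_le_mul e7 e25 (by norm_num) (Real.exp_pos _).le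
      _ ≤ p := by rw [← e32]; exact hp
  · rw [hm3]
    calc 1000 * m ^ 3 * Real.exp (25 * m) ≤ Real.exp (7 * m) * Real.exp (25 * m) :=
          mul_le_mul_of_nonneg_right e7 (Real.exp_pos _).le
      _ ≤ p := by rw [← e32]; exact hp

/-- **The pointwise inequality for every `n` and all large `p`.** -/
theorem star_big {n : ℕ} (hn : 1 ≤ n) {p : ℝ} (hp : Real.exp (32 * (n : ℝ) ^ 2) ≤ p) : Star n p := by
  have hn1 : (1 : ℝ) ≤ n := by exact_mod_cast hn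
  have hn2 : (1 : ℝ) ≤ (n : ℝ) ^ 2 := one_le_pow₀ hn1
  obtain ⟨hb1, hb2⟩ := big hn hp
  have hp0 : 10000 ≤ p := by nlinarith
  refine C0.main n p hn (by linarith) fun γ hL hg hor => ?_
  set σ := 1 / p with hσd
  have hσ0 : 0 < σ := by positivity
  have hσp : σ * p = 1 := by rw [hσd]; field_simp
  have hσ1 : σ ≤ 1 / 10000 := one_div_le_one_div_of_le (by norm_num) hp0
  have hσn : 10000 * (n : ℝ) ^ 2 * σ ≤ 1 := by
    calc 10000 * (n : ℝ) ^ 2 * σ ≤ p * σ := mul_le_mul_of_nonneg_right hb1 hσ0.le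
      _ = 1 := by rw [mul_comm]; exact hσp
  have hσe : 1000 * (n : ℝ) ^ 6 * Real.exp (25 * (n : ℝ) ^ 2) * σ ≤ 1 := by
    calc 1000 * (n : ℝ) ^ 6 * Real.exp (25 * (n : ℝ) ^ 2) * σ ≤ p * σ :=
          mul_le_mul_of_nonneg_right hb2 hσ0.le
      _ = 1 := by rw [mul_comm]; exact hσp
  have hT := TT_nonneg n γ
  have hE1 := e1 hσ0 (by linarith : σ ≤ 1 / 2) hn hL hg
  have hs0 := Real.sqrt_nonneg (TT n γ)
  have hss : √(TT n γ) ^ 2 = TT n γ := Real.sq_sqrt hT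
  set T := TT n γ with hTd
  set s := √T with hsd
  set r := p / 2 with hr
  have hr2 : 2 ≤ r := by rw [hr]; linarith
  have hrσ : r * σ = 1 / 2 := by rw [hr]; linarith
  have hn3 : (n : ℝ) ^ 2 ≤ (n : ℝ) ^ 3 := pow_le_pow_right₀ hn1 (by norm_num)
  have hn4 : (n : ℝ) ^ 4 ≤ (n : ℝ) ^ 6 := pow_le_pow_right₀ hn1 (by norm_num)
  have hn6 : (0 : ℝ) < (n : ℝ) ^ 6 := by positivity
  have hexp1 : 1 ≤ Real.exp (25 * (n : ℝ) ^ 2) := Real.one_le_exp (by positivity)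
  have hn6σ : 1000 * (n : ℝ) ^ 6 * σ ≤ 1 := by
    have : 1000 * (n : ℝ) ^ 6 * σ ≤ 1000 * (n : ℝ) ^ 6 * Real.exp (25 * (n : ℝ) ^ 2) * σ := by
      have : 0 ≤ 1000 * (n : ℝ) ^ 6 * σ := by positivity
      nlinarith
    linarith
  -- for `T ≤ 1`
  have hsmall : ∀ g : ℝ, γ 0 ≤ g → g ≤ 2 → T ≤ 1 → |(γ 0) ^ 2 - 1| ≤ 15 * (n : ℝ) ^ 3 * σ * s := by
    intro g hg1 hg2 hT1
    have hs1 : s ≤ 1 := by rw [hsd]; exact Real.sqrt_le_one.mpr hT1
    have hTs : T ≤ s := by nlinarith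
    have a1 : 6 * (n : ℝ) ^ 2 * σ * γ 0 * s ≤ 12 * (n : ℝ) ^ 3 * σ * s := by
      have b1 : (n : ℝ) ^ 2 * γ 0 ≤ (n : ℝ) ^ 3 * 2 :=
        mul_le_mul hn3 (by linarith) hg (by positivity)
      have b2 : 0 ≤ σ * s := by positivity
      nlinarith
    have a2 : 3 * (n : ℝ) ^ 3 * σ * T ≤ 3 * (n : ℝ) ^ 3 * σ * s :=
      mul_le_mul_of_nonneg_left hTs (by positivity)
    linarith
  have hsq : ∀ X : ℝ, |(γ 0) ^ 2 - 1| ≤ X → ((γ 0) ^ 2 - 1) ^ 2 ≤ X ^ 2 := by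
    intro X hX
    rw [← sq_abs]
    exact pow_le_pow_left₀ (abs_nonneg _) hX 2
  by_cases hle : γ 0 ≤ 1
  · have hbl : (γ 0) ^ 2 ≤ 1 := pow_le_one₀ hg hle
    have hph := E0.main.1 r ((γ 0) ^ 2) hr2 (sq_nonneg _) hbl
    rcases le_total T 1 with hT1 | hT1
    · have a := hsq _ (hsmall 1 hle (by norm_num) hT1)
      refine hph.1.trans ?_
      have e : (1 - (γ 0) ^ 2) ^ 2 = ((γ 0) ^ 2 - 1) ^ 2 := by ring
      rw [e]
      calc r * (r - 1) / 2 * ((γ 0) ^ 2 - 1) ^ 2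
          ≤ r * (r - 1) / 2 * (15 * (n : ℝ) ^ 3 * σ * s) ^ 2 := by
            apply mul_le_mul_of_nonneg_left a
            have : 0 ≤ r - 1 := by linarith
            positivity
        _ = (r - 1) * T * ((r * σ) * (225 / 2 * (n : ℝ) ^ 6 * σ)) := by rw [← hss]; ring
        _ ≤ (r - 1) * T * 1 := by
            apply mul_le_mul_of_nonneg_left
            · rw [hrσ]; linarith
            · exact mul_nonneg (by linarith) hT
        _ = (r - 1) * T := by ring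
    · refine hph.2.trans ?_
      have : 0 ≤ r - 1 := by linarith
      nlinarith
  · have hge : 1 < γ 0 := not_le.mp hle
    have hc : (γ n) ^ 2 ≤ (γ 0) ^ 2 := hor.resolve_left hle
    have hb := e2 hσ0 hn hσn hL hge.le hc
    have hbge : 1 ≤ (γ 0) ^ 2 := one_le_pow₀ hge.le
    have hph := E0.main.2 r ((γ 0) ^ 2) hr2 hbge
    have hpow : ((γ 0) ^ 2) ^ r ≤ Real.exp (25 * (n : ℝ) ^ 2) := by
      have h1 : (0 : ℝ) < (γ 0) ^ 2 := by linarith
      rw [Real.rpow_def_of_pos h1]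
      apply Real.exp_le_exp.mpr
      have h2 : Real.log ((γ 0) ^ 2) ≤ 50 * (n : ℝ) ^ 2 * σ := by
        have := Real.log_le_sub_one_of_pos h1
        linarith
      calc Real.log ((γ 0) ^ 2) * r ≤ 50 * (n : ℝ) ^ 2 * σ * r :=
            mul_le_mul_of_nonneg_right h2 (by linarith)
        _ = 50 * (n : ℝ) ^ 2 * (r * σ) := by ring
        _ = 25 * (n : ℝ) ^ 2 := by rw [hrσ]; ring
    have hpow0 : 0 ≤ ((γ 0) ^ 2) ^ r := Real.rpow_nonneg (sq_nonneg _) _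
    have hr1 : 0 ≤ r - 1 := by linarith
    have hgen : ∀ X : ℝ, ((γ 0) ^ 2 - 1) ^ 2 ≤ X ^ 2 →
        ph r ((γ 0) ^ 2) ≤ r * (r - 1) / 2 * (Real.exp (25 * (n : ℝ) ^ 2) * X ^ 2) := by
      intro X hX
      refine hph.trans ?_
      calc r * (r - 1) / 2 * ((γ 0) ^ 2) ^ r * ((γ 0) ^ 2 - 1) ^ 2
          = r * (r - 1) / 2 * (((γ 0) ^ 2) ^ r * ((γ 0) ^ 2 - 1) ^ 2) := by ring
        _ ≤ r * (r - 1) / 2 * (Real.exp (25 * (n : ℝ) ^ 2) * X ^ 2) := by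
            apply mul_le_mul_of_nonneg_left _ (by positivity)
            exact mul_le_mul hpow hX (sq_nonneg _) (Real.exp_pos _).le
    rcases le_total T 1 with hT1 | hT1
    · have hγ2 : γ 0 ≤ 2 := by nlinarith
      have a := hsq _ (hsmall (γ 0) le_rfl hγ2 hT1)
      refine (hgen _ a).trans ?_
      calc r * (r - 1) / 2 * (Real.exp (25 * (n : ℝ) ^ 2) * (15 * (n : ℝ) ^ 3 * σ * s) ^ 2)
          = (r - 1) * T * ((r * σ) * (225 / 2 * (n : ℝ) ^ 6 * Real.exp (25 * (n : ℝ) ^ 2) * σ)) := by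
            rw [← hss]; ring
        _ ≤ (r - 1) * T * 1 := by
            apply mul_le_mul_of_nonneg_left
            · rw [hrσ]
              have : 0 ≤ (n : ℝ) ^ 6 * Real.exp (25 * (n : ℝ) ^ 2) * σ := by positivity
              linarith
            · exact mul_nonneg (by linarith) hT
        _ = (r - 1) * T := by ring
    · have a : ((γ 0) ^ 2 - 1) ^ 2 ≤ (50 * (n : ℝ) ^ 2 * σ) ^ 2 :=
        pow_le_pow_left₀ (by linarith) (by linarith) 2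
      refine (hgen _ a).trans ?_
      calc r * (r - 1) / 2 * (Real.exp (25 * (n : ℝ) ^ 2) * (50 * (n : ℝ) ^ 2 * σ) ^ 2)
          = (r - 1) * ((r * σ) * (1250 * (n : ℝ) ^ 4 * Real.exp (25 * (n : ℝ) ^ 2) * σ)) := by ring
        _ ≤ (r - 1) * 1 := by
            apply mul_le_mul_of_nonneg_left _ hr1
            rw [hrσ]
            have h3 : (n : ℝ) ^ 4 * Real.exp (25 * (n : ℝ) ^ 2) * σ ≤
                (n : ℝ) ^ 6 * Real.exp (25 * (n : ℝ) ^ 2) * σ := by gcongr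
            linarith
        _ ≤ (r - 1) * T := mul_le_mul_of_nonneg_left hT1 hr1

end Pool.Agent.U588.RB
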