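import Mathlib
import Pool.Agent.Y282.RB.Stm
import Pool.Agent.Y282.RB.C0
import Pool.Agent.Y282.RB.E0

/-! # The pointwise inequality `Star n p` for every `n` and all large `p` (helper588) -/

set_option autoImplicit false

namespace Pool.Agent.U588.RB

open Finset Pool.Agent.Y282.RB

/-! ### the weights -/

lemma kk_den {σ : ℝ} (h0 : 0 < σ) (h1 : σ ≤ 1 / 2) (j : ℕ) :
    0 < ((j : ℝ) + σ) * ((j : ℝ) + 1 - σ) := by
  have : (0 : ℝ) ≤ j := Nat.cast_nonneg j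
  apply mul_pos <;> linarith

lemma kk_pos {σ : ℝ} (h0 : 0 < σ) (h1 : σ ≤ 1 / 2) (j : ℕ) : 0 < kk σ j := by
  unfold kk
  have : (0 : ℝ) ≤ j := Nat.cast_nonneg j
  exact div_pos (by linarith) (kk_den h0 h1 j)

lemma kk_le {σ : ℝ} (h0 : 0 < σ) (h1 : σ ≤ 1 / 2) {j : ℕ} (hj : 1 ≤ j) : kk σ j ≤ 2 := by
  unfold kk
  have h2 : (1 : ℝ) ≤ j := by exact_mod_cast hj
  rw [div_le_iff₀ (kk_den h0 h1 j)]
  have h3 : ((j : ℝ) + σ) * ((j : ℝ) + 1 - σ) = j * (j + 1) + σ * (1 - σ) := by ring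
  have h4 : 0 ≤ σ * (1 - σ) := mul_nonneg h0.le (by linarith)
  nlinarith

lemma kk_ge {σ : ℝ} (h0 : 0 < σ) (h1 : σ ≤ 1 / 2) {j n : ℕ} (hj : j < n) : 2 / (n : ℝ) ≤ kk σ j := by
  have h2 : (0 : ℝ) ≤ j := Nat.cast_nonneg j
  have h3 : (j : ℝ) + 1 ≤ n := by exact_mod_cast hj
  have h4 : (0 : ℝ) < n := by linarith
  unfold kk
  rw [div_le_div_iff₀ h4 (kk_den h0 h1 j)]
  have h5 : ((j : ℝ) + σ) * ((j : ℝ) + 1 - σ) ≤ (j + 1 / 2) ^ 2 := by nlinarith [sq_nonneg (σ - 1 / 2)]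
  nlinarith

lemma kk_zero {σ : ℝ} : kk σ 0 = 1 / (σ * (1 - σ)) := by
  unfold kk
  norm_num

lemma kk_zero_ge {σ : ℝ} (h0 : 0 < σ) (h1 : σ ≤ 1 / 2) : 1 / σ ≤ kk σ 0 := by
  rw [kk_zero]
  apply one_div_le_one_div_of_le (mul_pos h0 (by linarith))
  nlinarith

lemma kk_zero_le {σ : ℝ} (h0 : 0 < σ) (h1 : σ ≤ 1 / 2) : σ * kk σ 0 ≤ 2 := by
  rw [kk_zero, mul_one_div, div_le_iff₀ (mul_pos h0 (by linarith))]
  nlinarith

/-- the part of a sum over `j < n` with `1 ≤ j` -/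
lemma split0 (f : ℕ → ℝ) {n : ℕ} (hn : 1 ≤ n) :
    ∑ j ∈ range n, f j = f 0 + ∑ j ∈ Ico 1 n, f j := by
  rw [range_eq_Ico, sum_eq_sum_Ico_succ_bot (by omega)]

lemma KK_eq {σ : ℝ} {n : ℕ} (hn : 1 ≤ n) : KK σ n = kk σ 0 + ∑ j ∈ Ico 1 n, kk σ j := by
  unfold KK
  exact split0 _ hn

lemma tail_le {σ : ℝ} (h0 : 0 < σ) (h1 : σ ≤ 1 / 2) (n : ℕ) :
    ∑ j ∈ Ico 1 n, kk σ j ≤ 2 * n := by
  calc ∑ j ∈ Ico 1 n, kk σ j ≤ ∑ j ∈ Ico 1 n, (2 : ℝ) :=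
        sum_le_sum fun j hj => kk_le h0 h1 (mem_Ico.mp hj).1
    _ = 2 * ((n - 1 : ℕ) : ℝ) := by simp [mul_comm]
    _ ≤ 2 * n := by
        have : ((n - 1 : ℕ) : ℝ) ≤ n := by exact_mod_cast Nat.sub_le n 1
        linarith

lemma tail_nonneg {σ : ℝ} (h0 : 0 < σ) (h1 : σ ≤ 1 / 2) (n : ℕ) :
    0 ≤ ∑ j ∈ Ico 1 n, kk σ j := sum_nonneg fun j _ => (kk_pos h0 h1 j).le

lemma KK_ge {σ : ℝ} (h0 : 0 < σ) (h1 : σ ≤ 1 / 2) {n : ℕ} (hn : 1 ≤ n) : kk σ 0 ≤ KK σ n := by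
  rw [KK_eq hn]
  linarith [tail_nonneg h0 h1 n]

lemma KK_pos {σ : ℝ} (h0 : 0 < σ) (h1 : σ ≤ 1 / 2) {n : ℕ} (hn : 1 ≤ n) : 0 < KK σ n :=
  (kk_pos h0 h1 0).trans_le (KK_ge h0 h1 hn)

/-- the normalisation -/
lemma norm_eq {σ : ℝ} (h0 : 0 < σ) (h1 : σ ≤ 1 / 2) {n : ℕ} (hn : 1 ≤ n) {γ : ℕ → ℝ}
    (hL : Lam σ n γ = 1) : ∑ j ∈ range n, kk σ j * (yy σ γ j) ^ 2 = KK σ n := by
  unfold Lam at hL
  rwa [div_eq_one_iff_eq (KK_pos h0 h1 hn).ne'] at hL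

/-! ### the differences -/

lemma TT_nonneg (n : ℕ) (γ : ℕ → ℝ) : 0 ≤ TT n γ := C0.TT_nonneg n γ

lemma sum_odd (j : ℕ) : ∑ i ∈ range j, (2 * (i : ℝ) + 1) = (j : ℝ) ^ 2 := by
  induction j with
  | zero => simp
  | succ k ih =>
    rw [sum_range_succ, ih]
    push_cast
    ring

lemma path (n : ℕ) (γ : ℕ → ℝ) {j : ℕ} (hj : j ≤ n) : |γ j - γ 0| ≤ j * √(TT n γ) := by
  have h1 : (∑ i ∈ range j, (γ i - γ (i + 1))) ^ 2 ≤
      (∑ i ∈ range j, (2 * (i : ℝ) + 1)) * ∑ i ∈ range j, (γ i - γ (i + 1)) ^ 2 / (2 * (i : ℝ) + 1) := by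
    apply sum_sq_le_sum_mul_sum_of_sq_le_mul
    · intro i _; positivity
    · intro i _; positivity
    · intro i _
      apply le_of_eq
      field_simp
  rw [sum_range_sub', sum_odd] at h1
  have h4 : ∑ i ∈ range j, (γ i - γ (i + 1)) ^ 2 / (2 * (i : ℝ) + 1) ≤ TT n γ := by
    unfold TT
    exact sum_le_sum_of_subset_of_nonneg (range_mono hj) fun i _ _ => by positivity
  have h5 : (γ 0 - γ j) ^ 2 ≤ ((j : ℝ) * √(TT n γ)) ^ 2 := by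
    rw [mul_pow, Real.sq_sqrt (TT_nonneg n γ)]
    exact h1.trans (mul_le_mul_of_nonneg_left h4 (by positivity))
  have h6 := abs_le_of_sq_le_sq h5 (by positivity)
  rw [abs_sub_comm]
  exact h6

lemma th_ge {σ : ℝ} (h1 : σ ≤ 1 / 2) (j : ℕ) : 1 / 2 ≤ th σ j := by
  unfold th
  have h2 : (0 : ℝ) ≤ j := Nat.cast_nonneg j
  rw [div_le_div_iff₀ (by norm_num) (by linarith)]
  linarith

lemma th_le {σ : ℝ} (h0 : 0 < σ) (j : ℕ) : th σ j ≤ 1 := by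
  unfold th
  have h2 : (0 : ℝ) ≤ j := Nat.cast_nonneg j
  rw [div_le_one (by linarith)]
  linarith

lemma y_close {σ : ℝ} (h0 : 0 < σ) (h1 : σ ≤ 1 / 2) {n : ℕ} (γ : ℕ → ℝ) {j : ℕ} (hj : j < n) :
    |yy σ γ j - γ 0| ≤ n * √(TT n γ) := by
  have a := path n γ hj.le
  have b := path n γ (show j + 1 ≤ n from hj)
  have hs := Real.sqrt_nonneg (TT n γ)
  have h2 : ((j : ℕ) : ℝ) ≤ n := by exact_mod_cast hj.le
  have h3 : ((j + 1 : ℕ) : ℝ) ≤ n := by exact_mod_cast hj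
  have a' : |γ j - γ 0| ≤ n * √(TT n γ) := a.trans (mul_le_mul_of_nonneg_right h2 hs)
  have b' : |γ (j + 1) - γ 0| ≤ n * √(TT n γ) := b.trans (mul_le_mul_of_nonneg_right h3 hs)
  have t1 := th_ge h1 j
  have t2 := th_le h0 j
  have e : yy σ γ j - γ 0 = th σ j * (γ j - γ 0) + (1 - th σ j) * (γ (j + 1) - γ 0) := by
    unfold yy; ring
  rw [e]
  calc |th σ j * (γ j - γ 0) + (1 - th σ j) * (γ (j + 1) - γ 0)|
      ≤ |th σ j * (γ j - γ 0)| + |(1 - th σ j) * (γ (j + 1) - γ 0)| := abs_add_le _ _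
    _ = th σ j * |γ j - γ 0| + (1 - th σ j) * |γ (j + 1) - γ 0| := by
        rw [abs_mul, abs_mul, abs_of_nonneg (by linarith : 0 ≤ th σ j),
          abs_of_nonneg (by linarith : 0 ≤ 1 - th σ j)]
    _ ≤ th σ j * (n * √(TT n γ)) + (1 - th σ j) * (n * √(TT n γ)) :=
        add_le_add (mul_le_mul_of_nonneg_left a' (by linarith))
          (mul_le_mul_of_nonneg_left b' (by linarith))
    _ = n * √(TT n γ) := by ring

lemma th_zero {σ : ℝ} : th σ 0 = 1 - σ := by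
  unfold th
  norm_num

lemma y_zero {σ : ℝ} (γ : ℕ → ℝ) : yy σ γ 0 = (1 - σ) * γ 0 + σ * γ 1 := by
  unfold yy
  rw [th_zero]
  norm_num

lemma y_zero_close {σ : ℝ} (h0 : 0 < σ) {n : ℕ} (hn : 1 ≤ n) (γ : ℕ → ℝ) :
    |yy σ γ 0 - γ 0| ≤ σ * √(TT n γ) := by
  have a := path n γ hn
  rw [y_zero]
  have e : (1 - σ) * γ 0 + σ * γ 1 - γ 0 = σ * (γ 1 - γ 0) := by ring
  rw [e, abs_mul, abs_of_pos h0]
  apply mul_le_mul_of_nonneg_left _ h0.le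
  simpa using a

lemma sq_close {a b e : ℝ} (ha : 0 ≤ a) (h : |b - a| ≤ e) : |a ^ 2 - b ^ 2| ≤ e * (2 * a + e) := by
  have he : 0 ≤ e := (abs_nonneg _).trans h
  have h1 : a ^ 2 - b ^ 2 = -(b - a) * (2 * a + (b - a)) := by ring
  rw [h1, abs_mul, abs_neg]
  apply mul_le_mul h _ (abs_nonneg _) he
  refine (abs_add_le _ _).trans ?_
  rw [abs_of_nonneg (by linarith : 0 ≤ 2 * a)]
  linarith

/-- **E1** -/
lemma e1 {σ : ℝ} (h0 : 0 < σ) (h1 : σ ≤ 1 / 2) {n : ℕ} (hn : 1 ≤ n) {γ : ℕ → ℝ}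
    (hL : Lam σ n γ = 1) (hg : 0 ≤ γ 0) :
    |(γ 0) ^ 2 - 1| ≤ 6 * (n : ℝ) ^ 2 * σ * γ 0 * √(TT n γ) + 3 * (n : ℝ) ^ 3 * σ * TT n γ := by
  have hs := Real.sqrt_nonneg (TT n γ)
  have hss : √(TT n γ) * √(TT n γ) = TT n γ := Real.mul_self_sqrt (TT_nonneg n γ)
  set s := √(TT n γ) with hsd
  have hn1 : (1 : ℝ) ≤ n := by exact_mod_cast hn
  have hK := KK_pos h0 h1 hn
  have hN := norm_eq h0 h1 hn hL
  have e : KK σ n * ((γ 0) ^ 2 - 1) = ∑ j ∈ range n, kk σ j * ((γ 0) ^ 2 - (yy σ γ j) ^ 2) := by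
    simp only [mul_sub, sum_sub_distrib, ← sum_mul]
    rw [hN]
    unfold KK
    ring
  have b0 : |kk σ 0 * ((γ 0) ^ 2 - (yy σ γ 0) ^ 2)| ≤ kk σ 0 * (σ * s * (2 * γ 0 + σ * s)) := by
    rw [abs_mul, abs_of_pos (kk_pos h0 h1 0)]
    exact mul_le_mul_of_nonneg_left (sq_close hg (y_zero_close h0 hn γ)) (kk_pos h0 h1 0).le
  have b1 : |∑ j ∈ Ico 1 n, kk σ j * ((γ 0) ^ 2 - (yy σ γ j) ^ 2)| ≤
      (2 * n) * (n * s * (2 * γ 0 + n * s)) := by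
    refine (abs_sum_le_sum_abs _ _).trans ?_
    have hc : 0 ≤ n * s * (2 * γ 0 + n * s) := by positivity
    calc ∑ j ∈ Ico 1 n, |kk σ j * ((γ 0) ^ 2 - (yy σ γ j) ^ 2)|
        ≤ ∑ j ∈ Ico 1 n, kk σ j * (n * s * (2 * γ 0 + n * s)) := by
          refine sum_le_sum fun j hj => ?_
          rw [abs_mul, abs_of_pos (kk_pos h0 h1 j)]
          exact mul_le_mul_of_nonneg_left (sq_close hg (y_close h0 h1 γ (mem_Ico.mp hj).2))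
            (kk_pos h0 h1 j).le
      _ = (∑ j ∈ Ico 1 n, kk σ j) * (n * s * (2 * γ 0 + n * s)) := by rw [sum_mul]
      _ ≤ _ := mul_le_mul_of_nonneg_right (tail_le h0 h1 n) hc
  have b2 : KK σ n * |(γ 0) ^ 2 - 1| ≤ kk σ 0 * (σ * s * (2 * γ 0 + σ * s)) +
      (2 * n) * (n * s * (2 * γ 0 + n * s)) := by
    rw [show KK σ n * |(γ 0) ^ 2 - 1| = |KK σ n * ((γ 0) ^ 2 - 1)| by rw [abs_mul, abs_of_pos hK],
      e, split0 _ hn]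
    exact (abs_add_le _ _).trans (add_le_add b0 b1)
  have hk := KK_ge h0 h1 hn
  have hk1 : 1 ≤ σ * KK σ n := by
    have h2 := kk_zero_ge h0 h1
    rw [div_le_iff₀ h0] at h2
    nlinarith
  have b3 : KK σ n * |(γ 0) ^ 2 - 1| ≤ KK σ n * (σ * s * (2 * γ 0 + σ * s) +
      σ * ((2 * n) * (n * s * (2 * γ 0 + n * s)))) := by
    have c1 : 0 ≤ σ * s * (2 * γ 0 + σ * s) := by positivity
    have c2 : 0 ≤ (2 * n) * (n * s * (2 * γ 0 + n * s)) := by positivity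
    have c3 : kk σ 0 * (σ * s * (2 * γ 0 + σ * s)) ≤ KK σ n * (σ * s * (2 * γ 0 + σ * s)) :=
      mul_le_mul_of_nonneg_right hk c1
    have c4 : (2 * n) * (n * s * (2 * γ 0 + n * s)) ≤
        (σ * KK σ n) * ((2 * n) * (n * s * (2 * γ 0 + n * s))) := by nlinarith
    calc _ ≤ _ := b2
      _ ≤ KK σ n * (σ * s * (2 * γ 0 + σ * s)) +
          (σ * KK σ n) * ((2 * n) * (n * s * (2 * γ 0 + n * s))) := add_le_add c3 c4
      _ = _ := by ring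
  have b4 := le_of_mul_le_mul_left b3 hK
  refine b4.trans ?_
  rw [← hss]
  have d1 : σ * s * (2 * γ 0 + σ * s) ≤ 2 * (n : ℝ) ^ 2 * σ * γ 0 * s + (n : ℝ) ^ 3 * σ * (s * s) := by
    have e1 : (1 : ℝ) ≤ (n : ℝ) ^ 2 := one_le_pow₀ hn1
    have e2 : (1 : ℝ) ≤ (n : ℝ) ^ 3 := one_le_pow₀ hn1
    have e3 : 0 ≤ σ * γ 0 * s := by positivity
    have e4 : 0 ≤ σ * (s * s) := by positivity
    have e5 : σ * s * (σ * s) ≤ σ * (s * s) := by nlinarith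
    nlinarith
  nlinarith [d1]

end Pool.Agent.U588.RB
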